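import Mathlib
import Pool.Agent.Helper76.KrSpace

set_option autoImplicit false
universe u

/-!
# MP_5db720_gt: a `k`-semistratifiable `k_R`-space with a closed subspace which is not `k_R`
-/

namespace Pool.Agent.Results.MP_5db720_gt.ClosedSubspaceNotKR

open Set

/-- `X` is `k`-semistratifiable: to every open set `U` one can assign closed sets `S U n` whose
union is `U`, such that every compact subset of `U` is contained in some `S U n`, and
`S U n ⊆ S V n` whenever `U ⊆ V`. -/
def KSemistratifiable (X : Type u) [TopologicalSpace X] : Prop :=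
  ∃ S : Set X → ℕ → Set X,
    (∀ U, IsOpen U → (∀ n, IsClosed (S U n)) ∧ U = ⋃ n, S U n ∧
      ∀ K, IsCompact K → K ⊆ U → ∃ n, K ⊆ S U n) ∧
    ∀ U V, IsOpen U → IsOpen V → U ⊆ V → ∀ n, S U n ⊆ S V n

/-- `X` is a `k_R`-space: it is Tychonoff and every real function on `X` whose restrictions to the
compact subsets of `X` are continuous is continuous. -/
def KRSpace (X : Type u) [TopologicalSpace X] : Prop :=
  T35Space X ∧ ∀ f : X → ℝ, (∀ K : Set X, IsCompact K → ContinuousOn f K) → Continuous f

/-- There is a `k`-semistratifiable `k_R`-space with a closed subspace `F` and a discontinuous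
function on `F` which is continuous on every compact subset of `F`. -/
theorem result : ∃ (X : Type) (_ : TopologicalSpace X), KSemistratifiable X ∧ KRSpace X ∧
    ∃ F : Set X, IsClosed F ∧
      ∃ f : F → ℝ, (∀ K : Set F, IsCompact K → ContinuousOn f K) ∧ ¬ Continuous f := by
  obtain ⟨X, t, h1, h2, h3, h4⟩ := Pool.Agent.Helper76.Kr.exists_example
  exact ⟨X, t, h2, ⟨h1, h3⟩, h4⟩

end Pool.Agent.Results.MP_5db720_gt.ClosedSubspaceNotKR
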